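import Pool.Agent.H62.WN.Cover

/-!
# Weak-`k`-neighbour-connected graphs with a locally sparse vertex (MP_8119db_co)

The proof: let `v` be a vertex of degree `d`, `Out` the set of the vertices different from `v`
and not adjacent to `v`. No set of fewer than `k` vertices of `Out` dominates the neighbourhood of
`v` (`key`). A covering lemma (`Pool.Agent.H62.WN.cover`, a greedy argument which ends with a
matching argument) then bounds `|Out|` from below.
-/

set_option autoImplicit false

open scoped Classical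

namespace Pool.Agent.Results.MP_8119db_co.LocallySparse

/-- the closed neighbourhood `N[X]` of a finite set `X` of vertices -/
def closedNbhd {V : Type} (G : SimpleGraph V) (X : Finset V) : Set V :=
  {w | ∃ x ∈ X, w = x ∨ G.Adj x w}

/-- `G` is weak-`k`-neighbour-connected -/
def WeakNbrConn {V : Type} (G : SimpleGraph V) (k : ℕ) : Prop :=
  1 ≤ k ∧ ∀ X : Finset V, X.card ≤ k - 1 →
    (G.induce (closedNbhd G X)ᶜ).Connected ∧ 2 ≤ ((closedNbhd G X)ᶜ).ncard

/-- the degree of `v` -/
noncomputable def deg {V : Type} (G : SimpleGraph V) (v : V) : ℕ := {w | G.Adj v w}.ncard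

/-- the number of common neighbours of `v` and `u` -/
noncomputable def codeg {V : Type} (G : SimpleGraph V) (v u : V) : ℕ :=
  {w | G.Adj v w ∧ G.Adj u w}.ncard

section

variable {V : Type} [Fintype V] (G : SimpleGraph V) {k : ℕ} (h : WeakNbrConn G k) (v : V)

/-- `u` has a neighbour outside `N[v]` -/
def HasOut (u : V) : Prop := ∃ y, y ≠ v ∧ ¬ G.Adj v y ∧ G.Adj u y

include h in
theorem key (X : Finset V) (hX : ∀ x ∈ X, x ≠ v ∧ ¬ G.Adj v x)
    (hcov : ∀ u, G.Adj v u → HasOut G v u → ∃ x ∈ X, G.Adj x u) :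
    k ≤ X.card ∨ ((∃ u, G.Adj v u ∧ ¬ HasOut G v u) ∧ k ≤ X.card + 1) := by
  by_contra hcon
  push Not at hcon
  obtain ⟨hc1, hc2⟩ := hcon
  obtain ⟨hconn, hcard⟩ := h.2 X (by omega)
  have hvR : v ∈ (closedNbhd G X)ᶜ := by
    rintro ⟨x, hx, hx2 | hx2⟩
    · exact (hX x hx).1 hx2.symm
    · exact (hX x hx).2 hx2.symm
  -- one step
  have hstep : ∀ a b, b ∈ (closedNbhd G X)ᶜ → G.Adj a b →
      (a = v ∨ (G.Adj v a ∧ ¬ HasOut G v a)) → (b = v ∨ (G.Adj v b ∧ ¬ HasOut G v b)) := by
    intro a b hb hab ha
    have hb2 : G.Adj v b → ¬ HasOut G v b := by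
      intro hvb hout
      obtain ⟨x, hx, hxb⟩ := hcov b hvb hout
      exact hb ⟨x, hx, Or.inr hxb⟩
    rcases ha with rfl | ⟨ha1, ha2⟩
    · exact Or.inr ⟨hab, hb2 hab⟩
    · by_cases hbv : b = v
      · exact Or.inl hbv
      · right
        have : G.Adj v b := by
          by_contra hn
          exact ha2 ⟨b, hbv, hn, hab⟩
        exact ⟨this, hb2 this⟩
  have hwalk : ∀ (a b : ((closedNbhd G X)ᶜ : Set V)) (_ : (G.induce (closedNbhd G X)ᶜ).Walk a b),
      ((a : V) = v ∨ (G.Adj v a ∧ ¬ HasOut G v a)) →
      ((b : V) = v ∨ (G.Adj v b ∧ ¬ HasOut G v b)) := by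
    intro a b p
    induction p with
    | nil => exact fun h => h
    | cons hadj _ ih =>
      intro ha
      exact ih (hstep _ _ (Subtype.prop _) hadj ha)
  have hall : ∀ w ∈ (closedNbhd G X)ᶜ, w = v ∨ (G.Adj v w ∧ ¬ HasOut G v w) := by
    intro w hw
    obtain ⟨p⟩ := hconn.preconnected ⟨v, hvR⟩ ⟨w, hw⟩
    exact hwalk ⟨v, hvR⟩ ⟨w, hw⟩ p (Or.inl rfl)
  by_cases hz : ∃ u, G.Adj v u ∧ ¬ HasOut G v u
  · have h3 := hc2 hz
    have hcard' : (insert v X).card ≤ k - 1 := by
      have := Finset.card_insert_le v X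
      omega
    obtain ⟨-, hcard2⟩ := h.2 (insert v X) hcard'
    have hempty : (closedNbhd G (insert v X))ᶜ = ∅ := by
      rw [Set.eq_empty_iff_forall_notMem]
      intro w hw
      have hwR : w ∈ (closedNbhd G X)ᶜ := by
        rintro ⟨x, hx, hx2⟩
        exact hw ⟨x, Finset.mem_insert_of_mem hx, hx2⟩
      rcases hall w hwR with h4 | ⟨h4, -⟩
      · exact hw ⟨v, Finset.mem_insert_self _ _, Or.inl h4⟩
      · exact hw ⟨v, Finset.mem_insert_self _ _, Or.inr h4⟩
    rw [hempty, Set.ncard_empty] at hcard2
    omega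
  · push Not at hz
    have hsub : (closedNbhd G X)ᶜ ⊆ {v} := by
      intro w hw
      rcases hall w hw with h4 | ⟨h4, h5⟩
      · exact h4
      · exact absurd (hz w h4) h5
    have := Set.ncard_le_ncard hsub (Set.finite_singleton v)
    rw [Set.ncard_singleton] at this
    omega

/-- choice of neighbours outside `N[v]` -/
theorem exists_o : ∃ o : V → V, ∀ u, HasOut G v u → o u ≠ v ∧ ¬ G.Adj v (o u) ∧ G.Adj u (o u) := by
  have : ∀ u, ∃ y, HasOut G v u → y ≠ v ∧ ¬ G.Adj v y ∧ G.Adj u y := by
    intro u
    by_cases hu : HasOut G v u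
    · obtain ⟨y, hy⟩ := hu
      exact ⟨y, fun _ => hy⟩
    · exact ⟨u, fun h => absurd h hu⟩
  choose o ho using this
  exact ⟨o, ho⟩

include h in
/-- every degree is at least `k` -/
theorem k_le_deg : k ≤ (Finset.univ.filter (fun u => G.Adj v u)).card := by
  obtain ⟨o, ho⟩ := exists_o G v
  set D := Finset.univ.filter (fun u => G.Adj v u) with hD
  set X := (D.filter (fun u => HasOut G v u)).image o with hXdef
  have hXc : X.card ≤ (D.filter (fun u => HasOut G v u)).card := Finset.card_image_le
  have hk1 : ∀ x ∈ X, x ≠ v ∧ ¬ G.Adj v x := by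
    intro x hx
    obtain ⟨u, hu, rfl⟩ := Finset.mem_image.1 hx
    have := ho u (Finset.mem_filter.1 hu).2
    exact ⟨this.1, this.2.1⟩
  have hk2 : ∀ u, G.Adj v u → HasOut G v u → ∃ x ∈ X, G.Adj x u := by
    intro u hu hout
    refine ⟨o u, Finset.mem_image_of_mem o (Finset.mem_filter.2 ⟨?_, hout⟩), (ho u hout).2.2.symm⟩
    rw [hD, Finset.mem_filter]
    exact ⟨Finset.mem_univ _, hu⟩
  rcases key G h v X hk1 hk2 with h1 | ⟨⟨u, hu, hu2⟩, h1⟩
  · exact h1.trans (hXc.trans (Finset.card_le_card (Finset.filter_subset _ _)))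
  · have hlt : (D.filter (fun u => HasOut G v u)).card < D.card := by
      apply Finset.card_lt_card
      refine ⟨Finset.filter_subset _ _, fun hsub => ?_⟩
      have : u ∈ D := by rw [hD, Finset.mem_filter]; exact ⟨Finset.mem_univ _, hu⟩
      exact hu2 (Finset.mem_filter.1 (hsub this)).2
    omega

include h in
/-- the basic inequality -/
theorem basic (m : ℕ) (hm : 1 ≤ m) :
    k ^ 2 * m ≤ (Finset.univ.filter (fun u => G.Adj v u)).card *
      ((Finset.univ.filter (fun w => w ≠ v ∧ ¬ G.Adj v w)).card +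
        ∑ u ∈ Finset.univ.filter (fun u => G.Adj v u),
          (m - ((Finset.univ.filter (fun w => w ≠ v ∧ ¬ G.Adj v w)).filter
            (fun w => G.Adj u w)).card)) := by
  set D := Finset.univ.filter (fun u => G.Adj v u) with hD
  set Out := Finset.univ.filter (fun w => w ≠ v ∧ ¬ G.Adj v w) with hOut
  set out : V → ℕ := fun u => (Out.filter (fun w => G.Adj u w)).card with hout
  set A : V ⊕ ((_ : V) × ℕ) → Finset V :=
    Sum.elim (fun y => Finset.univ.filter (fun u => G.Adj y u)) (fun p => {p.1}) with hA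
  set Y : Finset (V ⊕ ((_ : V) × ℕ)) :=
    Out.disjSum (D.sigma (fun u => Finset.range (m - out u))) with hY
  have hYc : Y.card = Out.card + ∑ u ∈ D, (m - out u) := by
    rw [hY, Finset.card_disjSum, Finset.card_sigma]
    simp only [Finset.card_range]
  have hdeg : ∀ u ∈ D, m ≤ (Y.filter (fun y => u ∈ A y)).card := by
    intro u hu
    have hsub : (Out.filter (fun w => G.Adj u w)).disjSum
        (({u} : Finset V).sigma (fun _ => Finset.range (m - out u))) ⊆
        Y.filter (fun y => u ∈ A y) := by
      intro y hy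
      rw [Finset.mem_filter]
      rcases y with y | p
      · rw [Finset.inl_mem_disjSum, Finset.mem_filter] at hy
        refine ⟨Finset.inl_mem_disjSum.2 hy.1, ?_⟩
        rw [hA]
        simp only [Sum.elim_inl, Finset.mem_filter, Finset.mem_univ, true_and]
        exact hy.2.symm
      · rw [Finset.inr_mem_disjSum, Finset.mem_sigma, Finset.mem_singleton] at hy
        refine ⟨Finset.inr_mem_disjSum.2 (Finset.mem_sigma.2 ⟨?_, ?_⟩), ?_⟩
        · rw [hy.1]; exact hu
        · rw [hy.1]; exact hy.2
        · rw [hA]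
          simp only [Sum.elim_inr, Finset.mem_singleton]
          exact hy.1.symm
    have hc := Finset.card_le_card hsub
    rw [Finset.card_disjSum, Finset.card_sigma, Finset.sum_singleton, Finset.card_range] at hc
    have : out u = (Out.filter (fun w => G.Adj u w)).card := rfl
    omega
  obtain ⟨C, hC, hcov, hcard⟩ := Pool.Agent.H62.WN.cover A Y m hm D.card D rfl hdeg
  rw [← hYc]
  refine le_trans (Nat.mul_le_mul_right m (Nat.pow_le_pow_left ?_ 2)) hcard
  -- `k ≤ C.card`
  obtain ⟨o, ho⟩ := exists_o G v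
  set good : V ⊕ ((_ : V) × ℕ) → Prop := Sum.elim (fun _ => True) (fun p => HasOut G v p.1)
    with hgood
  set g : V ⊕ ((_ : V) × ℕ) → V := Sum.elim id (fun p => o p.1) with hg
  set X := (C.filter good).image g with hXdef
  have hXc : X.card ≤ (C.filter good).card := Finset.card_image_le
  have hmemOut : ∀ a, Sum.inl a ∈ C → a ≠ v ∧ ¬ G.Adj v a := by
    intro a ha
    have h1 := hC ha
    rw [hY, Finset.inl_mem_disjSum, hOut, Finset.mem_filter] at h1
    exact h1.2
  have hk1 : ∀ x ∈ X, x ≠ v ∧ ¬ G.Adj v x := by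
    intro x hx
    obtain ⟨y, hy, rfl⟩ := Finset.mem_image.1 hx
    rw [Finset.mem_filter] at hy
    rcases y with a | p
    · exact hmemOut a hy.1
    · have h2 : HasOut G v p.1 := hy.2
      exact ⟨(ho p.1 h2).1, (ho p.1 h2).2.1⟩
  have hk2 : ∀ u, G.Adj v u → HasOut G v u → ∃ x ∈ X, G.Adj x u := by
    intro u hu huo
    have huD : u ∈ D := by rw [hD, Finset.mem_filter]; exact ⟨Finset.mem_univ _, hu⟩
    obtain ⟨y, hy, huy⟩ := hcov u huD
    rcases y with a | p
    · rw [hA] at huy
      simp only [Sum.elim_inl, Finset.mem_filter, Finset.mem_univ, true_and] at huy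
      exact ⟨a, Finset.mem_image.2 ⟨Sum.inl a, Finset.mem_filter.2 ⟨hy, trivial⟩, rfl⟩, huy⟩
    · rw [hA] at huy
      simp only [Sum.elim_inr, Finset.mem_singleton] at huy
      have h2 : HasOut G v p.1 := by rw [← huy]; exact huo
      refine ⟨o p.1, Finset.mem_image.2 ⟨Sum.inr p, Finset.mem_filter.2 ⟨hy, h2⟩, rfl⟩, ?_⟩
      rw [huy]
      exact (ho p.1 h2).2.2.symm
  rcases key G h v X hk1 hk2 with h1 | ⟨⟨u, hu, hu2⟩, h1⟩
  · exact h1.trans (hXc.trans (Finset.card_le_card (Finset.filter_subset _ _)))
  · have hlt : (C.filter good).card < C.card := by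
      apply Finset.card_lt_card
      refine ⟨Finset.filter_subset _ _, fun hsub => ?_⟩
      have huD : u ∈ D := by rw [hD, Finset.mem_filter]; exact ⟨Finset.mem_univ _, hu⟩
      obtain ⟨y, hy, huy⟩ := hcov u huD
      have hgy := (Finset.mem_filter.1 (hsub hy)).2
      rcases y with a | p
      · rw [hA] at huy
        simp only [Sum.elim_inl, Finset.mem_filter, Finset.mem_univ, true_and] at huy
        exact hu2 ⟨a, (hmemOut a hy).1, (hmemOut a hy).2, huy.symm⟩
      · rw [hA] at huy
        simp only [Sum.elim_inr, Finset.mem_singleton] at huy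
        rw [hgood] at hgy
        simp only [Sum.elim_inr] at hgy
        rw [← huy] at hgy
        exact hu2 hgy
    omega

end

theorem result : ∀ (V : Type) [Fintype V] (G : SimpleGraph V) (k : ℕ), WeakNbrConn G k →
    ∀ v : V, (∀ u, G.Adj v u → deg G v ≤ deg G u) → ∀ s : ℕ,
      k ^ 2 + 1 ≤ Fintype.card V + s * k +
        ∑ u ∈ Finset.univ.filter (fun u => G.Adj v u), (codeg G v u - s) := by
  intro V _ G k h v hmin s
  have hdeg : ∀ a, deg G a = (Finset.univ.filter (fun u => G.Adj a u)).card := by
    intro a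
    unfold deg
    rw [← Set.ncard_coe_finset]
    congr 1
    ext w
    simp
  have hco : ∀ u, codeg G v u = (Finset.univ.filter (fun w => G.Adj v w ∧ G.Adj u w)).card := by
    intro u
    unfold codeg
    rw [← Set.ncard_coe_finset]
    congr 1
    ext w
    simp
  have hk := k_le_deg G h v
  set D := Finset.univ.filter (fun u => G.Adj v u) with hD
  set Out := Finset.univ.filter (fun w => w ≠ v ∧ ¬ G.Adj v w) with hOut
  have hn : Fintype.card V = 1 + D.card + Out.card := by
    have h1 : D.card + (Finset.univ.filter (fun u => ¬ G.Adj v u)).card = Fintype.card V :=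
      Finset.card_filter_add_card_filter_not _
    have h2 : Finset.univ.filter (fun u => ¬ G.Adj v u) = insert v Out := by
      ext w
      simp only [Finset.mem_filter, Finset.mem_univ, true_and, Finset.mem_insert, hOut]
      constructor
      · intro hw
        by_cases hwv : w = v
        · exact Or.inl hwv
        · exact Or.inr ⟨hwv, hw⟩
      · rintro (rfl | ⟨-, hw⟩)
        · exact G.irrefl
        · exact hw
    have h3 : v ∉ Out := by
      rw [hOut, Finset.mem_filter]
      rintro ⟨-, h4, -⟩
      exact h4 rfl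
    rw [h2, Finset.card_insert_of_notMem h3] at h1
    omega
  have hkpos : 1 ≤ k := h.1
  rcases Nat.lt_or_ge (s + 1) D.card with hs | hs
  · have hb := basic G h v (D.card - 1 - s) (by omega)
    rw [← hD, ← hOut] at hb
    have hle : ∑ u ∈ D, (D.card - 1 - s - (Out.filter (fun w => G.Adj u w)).card) ≤
        ∑ u ∈ D, (codeg G v u - s) := by
      refine Finset.sum_le_sum fun u hu => ?_
      have hvu : G.Adj v u := by
        rw [hD, Finset.mem_filter] at hu
        exact hu.2
      have h1 := hmin u hvu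
      rw [hdeg v, hdeg u, ← hD] at h1
      have h2 : (Finset.univ.filter (fun w => G.Adj u w)).card ≤
          1 + codeg G v u + (Out.filter (fun w => G.Adj u w)).card := by
        rw [hco]
        have hsub : Finset.univ.filter (fun w => G.Adj u w) ⊆
            insert v (Finset.univ.filter (fun w => G.Adj v w ∧ G.Adj u w) ∪
              Out.filter (fun w => G.Adj u w)) := by
          intro w hw
          simp only [Finset.mem_filter, Finset.mem_univ, true_and, Finset.mem_insert,
            Finset.mem_union, hOut] at hw ⊢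
          by_cases hwv : w = v
          · exact Or.inl hwv
          · by_cases hvw : G.Adj v w
            · exact Or.inr (Or.inl ⟨hvw, hw⟩)
            · exact Or.inr (Or.inr ⟨⟨hwv, hvw⟩, hw⟩)
        have h3 := Finset.card_le_card hsub
        have h4 := Finset.card_insert_le v (Finset.univ.filter (fun w => G.Adj v w ∧ G.Adj u w) ∪
              Out.filter (fun w => G.Adj u w))
        have h5 := Finset.card_union_le (Finset.univ.filter (fun w => G.Adj v w ∧ G.Adj u w))
          (Out.filter (fun w => G.Adj u w))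
        omega
      omega
    have hb2 : k ^ 2 * (D.card - 1 - s) ≤
        D.card * (Out.card + ∑ u ∈ D, (codeg G v u - s)) :=
      hb.trans (Nat.mul_le_mul_left _ (Nat.add_le_add_left hle _))
    rw [hn]
    generalize ∑ u ∈ D, (codeg G v u - s) = S at *
    generalize Out.card = M at *
    obtain ⟨m, hm⟩ : ∃ m, D.card = m + 1 + s := ⟨D.card - 1 - s, by omega⟩
    have hm2 : D.card - 1 - s = m := by omega
    rw [hm2] at hb2
    rw [hm] at hb2 hk ⊢
    by_contra hcon
    push Not at hcon
    have e1 : 1 + (m + 1 + s) + M + s * k + S ≤ k ^ 2 := by omega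
    zify at *
    nlinarith [mul_le_mul_of_nonneg_left e1 (show (0 : ℤ) ≤ m + 1 + s by positivity),
      mul_le_mul_of_nonneg_left hk (show (0 : ℤ) ≤ s * k by positivity),
      mul_le_mul hk hk (by positivity) (by positivity)]
  · have e1 : k ≤ s + 1 := hk.trans hs
    rw [hn]
    have e2 : k ^ 2 ≤ (s + 1) * k := by rw [sq]; exact Nat.mul_le_mul_right k e1
    have e3 : (s + 1) * k = s * k + k := by ring
    omega

end Pool.Agent.Results.MP_8119db_co.LocallySparse
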